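import Pool.Agent.H78.Tak

set_option autoImplicit false
open Pool.Agent.H78.Tak

theorem Pool.Agent.Results.MP_4a5b11_an.Exists.result :
    ∃ y ∈ Set.Icc (0 : ℝ) (2 / 3), (L y).Countable ∧ (L y).Infinite ∧
      ∀ m k : ℕ, k ≤ 2 ^ m → T ((k : ℝ) / 2 ^ m) ≠ y :=
  ⟨1349 / 43690, by constructor <;> norm_num, main.1, main.2.1, fun m k _ => main.2.2 m k⟩
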